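import Pool.Agent.PDT.Stmts2
import Pool.Agent.Helper53_Chan.PolyTime

/-!
# PDT, module TIM: the list belonging to a formula is computable in polynomial time
-/

set_option autoImplicit false

namespace Pool.Agent.PDT.H53

open Pool.Agent.Helper53_CookLevin Pool.Agent.Helper53_Chan Turing
open Pool.Agent.Common_CookLevin (encodeCNF CNF CNFLetter)
open Pool.Agent.Helper32_Poly
open Pool.Agent.PDM (bs off)

/-! ### Numbers in unary -/

/-- the number `e` is printed in unary by a generator -/
def NG (m : ℕ) (e : (Fin m → List A) → ℕ) : Prop :=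
  PGen m (fun ρ => List.replicate (e ρ) A.tick)

section

variable {m : ℕ} {x y : (Fin m → List A) → ℕ}

theorem NG.const (c : ℕ) : NG m (fun _ => c) := PGen.const (List.replicate c A.tick)

theorem NG.add (hx : NG m x) (hy : NG m y) : NG m (fun ρ => x ρ + y ρ) :=
  PGen.congr (PGen.append hx hy) (fun ρ => by rw [List.replicate_add])

theorem NG.len (j : Fin m) : NG m (fun ρ => (ρ j).length) := NumA.var j A.tick

theorem NG.rename {m' : ℕ} (f : Fin m → Fin m') (hx : NG m x) : NG m' (fun ρ => x (ρ ∘ f)) :=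
  PGen.rename f hx

theorem NG.sub (hx : NG m x) (hy : NG m y) : NG m (fun ρ => x ρ - y ρ) :=
  PGen.congr (PGen.dropF hx hy) (fun ρ => by rw [List.length_replicate, List.drop_replicate])

/-- loop over the numbers below a number -/
theorem loopN (hx : NG m x) {K : ℕ → (Fin m → List A) → List A}
    (hK : PGen (m + 1) (fun ρ => K (ρ 0).length (ρ ∘ Fin.succ))) :
    PGen m (fun ρ => (List.range (x ρ)).flatMap (fun a => K a ρ)) :=
  PGen.congr (PGen.loopRange hx (K := fun w ρ => K w.length ρ) hK) (fun ρ =>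
    List.flatMap_congr (fun b _ => by simp only [List.length_replicate]))

theorem NG.mul (hx : NG m x) (hy : NG m y) : NG m (fun ρ => x ρ * y ρ) :=
  PGen.congr (loopN hx (K := fun _ ρ => List.replicate (y ρ) A.tick) (PGen.rename Fin.succ hy))
    (fun ρ => flatMap_replicate A.tick (y ρ) (x ρ))

theorem NG.pow (hx : NG m x) : ∀ n : ℕ, NG m (fun ρ => x ρ ^ n)
  | 0 => by simpa using (NG.const 1 : NG m (fun _ => 1))
  | n + 1 => by
    simp only [pow_succ]
    exact NG.mul (NG.pow hx n) hx

theorem sum_replicate (f : ℕ → ℕ) : ∀ n : ℕ,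
    (List.range n).flatMap (fun k => List.replicate (f k) A.tick) =
      List.replicate ((List.range n).map f).sum A.tick
  | 0 => rfl
  | n + 1 => by
    rw [List.range_succ, List.flatMap_append, sum_replicate f n, List.map_append, List.sum_append,
      List.replicate_add]
    simp

theorem NG.sum (hx : NG m x) {f : ℕ → (Fin m → List A) → ℕ}
    (hf : NG (m + 1) (fun ρ => f (ρ 0).length (ρ ∘ Fin.succ))) :
    NG m (fun ρ => ((List.range (x ρ)).map (fun k => f k ρ)).sum) :=
  PGen.congr (loopN hx (K := fun k ρ => List.replicate (f k ρ) A.tick) hf)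
    (fun ρ => sum_replicate (fun k => f k ρ) (x ρ))

theorem NG.length {F : (Fin m → List A) → List A} (hF : PGen m F) :
    NG m (fun ρ => (F ρ).length) :=
  PGen.letG hF (K := fun w _ => List.replicate w.length A.tick) (NG.len (0 : Fin (m + 1)))

/-- comparison of numbers -/
theorem tEq (hx : NG m x) (hy : NG m y) : Test m (fun ρ => x ρ = y ρ) :=
  Test.congr (Test.lenEq hx hy) (fun ρ => by rw [List.length_replicate, List.length_replicate])

theorem tLe (hx : NG m x) (hy : NG m y) : Test m (fun ρ => x ρ ≤ y ρ) :=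
  Test.congr (Test.lenLe hx hy) (fun ρ => by rw [List.length_replicate, List.length_replicate])

theorem tNot {P : (Fin m → List A) → Prop} (hP : Test m P) : Test m (fun ρ => ¬ P ρ) := by
  classical
  refine ⟨fun ρ => if P ρ then [A.tick] else [], Test.ite hP (PGen.const _) (PGen.const _),
    fun ρ => ?_⟩
  by_cases h : P ρ <;> simp [h]

theorem tOr {P Q : (Fin m → List A) → Prop} (hP : Test m P) (hQ : Test m Q) :
    Test m (fun ρ => P ρ ∨ Q ρ) :=
  Test.congr (tNot (Test.and (tNot hP) (tNot hQ))) (fun ρ => by tauto)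

/-! ### The numbers of the sequence -/

variable {t i : (Fin m → List A) → ℕ}

theorem ng_bs (ht : NG m t) : NG m (fun ρ => bs (t ρ)) :=
  NG.mul (NG.const 4) (NG.pow (NG.add ht (NG.const 1)) 2)

theorem ng_off (ht : NG m t) : NG m (fun ρ => off (t ρ)) :=
  NG.mul (NG.mul (NG.const 8) (NG.add ht (NG.const 1))) (NG.pow (ng_bs ht) 6)

theorem ng_code (k : ℕ) (ht : NG m t) (hi : NG m i) : NG m (fun ρ => codeN (t ρ) k (i ρ)) :=
  NG.add (NG.mul (NG.pow (ng_bs ht) (2 * k)) (NG.add hi (NG.const 1)))
    (NG.mul (NG.pow (ng_bs ht) (2 * k + 1)) (NG.pow (NG.add hi (NG.const 1)) 2))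

theorem ng_vA (k : ℕ) (ht : NG m t) (hi : NG m i) : NG m (fun ρ => vAN (t ρ) k (i ρ)) :=
  NG.mul (NG.const 8) (NG.add (ng_off ht) (ng_code k ht hi))

theorem ng_sA (ht : NG m t) : NG m (fun ρ => sAN (t ρ)) :=
  NG.sum ht (f := fun i ρ => vAN (t ρ) 0 i + vAN (t ρ) 1 i + vAN (t ρ) 2 i)
    (NG.add (NG.add (ng_vA 0 (NG.rename Fin.succ ht) (NG.len 0))
      (ng_vA 1 (NG.rename Fin.succ ht) (NG.len 0))) (ng_vA 2 (NG.rename Fin.succ ht) (NG.len 0)))

theorem ng_vD (ht : NG m t) : NG m (fun ρ => vDN (t ρ)) :=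
  NG.add (NG.mul (NG.const 2) (ng_sA ht)) (NG.const 9)

/-- printing a number -/
def prn (v : ℕ) : List A := List.replicate v A.tick ++ [A.width]

theorem gen_prn (hx : NG m x) : PGen m (fun ρ => prn (x ρ)) := PGen.append hx (PGen.const _)

end

/-! ### Literals -/

/-- the letter of a sign -/
def sg (b : Bool) : A := if b then A.pos else A.neg

theorem sg_ne_tick (b : Bool) : sg b ≠ A.tick := by cases b <;> decide

theorem sg_ne_clause (b : Bool) : sg b ≠ A.clause := by cases b <;> decide

theorem sg_inj {b b' : Bool} (h : sg b = sg b') : b = b' := by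
  cases b <;> cases b' <;> first | rfl | (exfalso; revert h; decide)

/-- the letter of the beginning of a clause -/
def isCl (c : A) : Bool := decide (c = A.clause)

/-- number of ticks at the beginning -/
def lead (s : List A) : ℕ := tr A.tick s.reverse

theorem lead_cons (c : A) (s : List A) : lead (c :: s) = if c = A.tick then lead s + 1 else 0 := by
  unfold lead
  rw [List.reverse_cons, tr_snoc]

theorem lead_ticks (s : List A) : ∀ k : ℕ, lead (List.replicate k A.tick ++ s) = k + lead s
  | 0 => by simp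
  | k + 1 => by
    rw [List.replicate_succ, List.cons_append, lead_cons, if_pos rfl, lead_ticks s k]
    omega

/-- `occ b i n s`: after `n` further clause letters of `s`, and before the next one, the literal
`(i, b)` is printed -/
def occ (b : Bool) (i : ℕ) : ℕ → List A → Prop
  | _, [] => False
  | n, c :: s => (c = sg b ∧ n = 0 ∧ lead s = i) ∨
      (if c = A.clause then ∃ n', n = n' + 1 ∧ occ b i n' s else occ b i n s)

theorem occ_nil (b : Bool) (i n : ℕ) : ¬ occ b i n [] := by
  unfold occ
  exact id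

theorem occ_cons (b : Bool) (i n : ℕ) (c : A) (s : List A) :
    occ b i n (c :: s) ↔ (c = sg b ∧ n = 0 ∧ lead s = i) ∨
      (if c = A.clause then ∃ n', n = n' + 1 ∧ occ b i n' s else occ b i n s) := by
  rw [occ]

theorem occ_clause (b : Bool) (i n : ℕ) (s : List A) :
    occ b i n (A.clause :: s) ↔ ∃ n', n = n' + 1 ∧ occ b i n' s := by
  rw [occ_cons, if_pos rfl]
  constructor
  · rintro (⟨h, -⟩ | h)
    · exact absurd h.symm (sg_ne_clause b)
    · exact h
  · exact Or.inr

theorem occ_tick (b : Bool) (i n : ℕ) (s : List A) :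
    occ b i n (A.tick :: s) ↔ occ b i n s := by
  rw [occ_cons, if_neg (by decide)]
  constructor
  · rintro (⟨h, -⟩ | h)
    · exact absurd h.symm (sg_ne_tick b)
    · exact h
  · exact Or.inr

theorem occ_ticks (b : Bool) (i n : ℕ) (s : List A) : ∀ k : ℕ,
    occ b i n (List.replicate k A.tick ++ s) ↔ occ b i n s
  | 0 => Iff.rfl
  | k + 1 => by
    rw [List.replicate_succ, List.cons_append, occ_tick, occ_ticks b i n s k]

/-- the word of the literals of a clause -/
def litsW (C : List (ℕ × Bool)) : List A :=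
  C.flatMap fun l => sg l.2 :: List.replicate l.1 A.tick

/-- the word of a formula -/
def encW (F : CNF) : List A := F.flatMap fun C => A.clause :: litsW C

theorem litsW_cons (l : ℕ × Bool) (C : List (ℕ × Bool)) :
    litsW (l :: C) = sg l.2 :: (List.replicate l.1 A.tick ++ litsW C) := by
  simp [litsW]

theorem encW_cons (C : List (ℕ × Bool)) (F : CNF) :
    encW (C :: F) = A.clause :: (litsW C ++ encW F) := by
  simp [encW]

theorem map_inj (F : CNF) : (encodeCNF F).map inj = encW F := by
  unfold encodeCNF encW litsW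
  rw [List.map_flatMap]
  refine List.flatMap_congr (fun C _ => ?_)
  rw [List.map_cons, List.map_flatMap]
  congr 1
  refine List.flatMap_congr (fun l _ => ?_)
  rw [List.map_cons, List.map_replicate]
  congr 1
  unfold sg
  cases l.2 <;> rfl

theorem lead_rest (F : CNF) : ∀ C : List (ℕ × Bool), lead (litsW C ++ encW F) = 0
  | [] => by
    show lead (encW F) = 0
    cases F with
    | nil => rfl
    | cons C F =>
      rw [encW_cons, lead_cons, if_neg (by decide)]
  | l :: C => by
    rw [litsW_cons, List.cons_append, lead_cons, if_neg (sg_ne_tick _)]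

theorem occ_lits_zero (b : Bool) (i : ℕ) (F : CNF) : ∀ C : List (ℕ × Bool),
    occ b i 0 (litsW C ++ encW F) ↔ (i, b) ∈ C
  | [] => by
    show occ b i 0 (encW F) ↔ _
    have h : ¬ occ b i 0 (encW F) := by
      cases F with
      | nil => exact occ_nil b i 0
      | cons C F =>
        rw [encW_cons, occ_clause]
        rintro ⟨n', h, -⟩
        omega
    simpa using h
  | l :: C => by
    rw [litsW_cons, List.cons_append, occ_cons, if_neg (sg_ne_clause _), List.append_assoc,
      lead_ticks, lead_rest, occ_ticks, occ_lits_zero b i F C, List.mem_cons]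
    constructor
    · rintro (⟨h1, -, h2⟩ | h)
      · left
        rw [← sg_inj h1, ← h2]
        rfl
      · exact Or.inr h
    · rintro (h | h)
      · left
        rw [← h]
        exact ⟨rfl, rfl, rfl⟩
      · exact Or.inr h

theorem occ_lits_succ (b : Bool) (i n : ℕ) (s : List A) : ∀ C : List (ℕ × Bool),
    occ b i (n + 1) (litsW C ++ s) ↔ occ b i (n + 1) s
  | [] => Iff.rfl
  | l :: C => by
    rw [litsW_cons, List.cons_append, occ_cons, if_neg (sg_ne_clause _), List.append_assoc,
      occ_ticks, occ_lits_succ b i n s C]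
    constructor
    · rintro (⟨-, h, -⟩ | h)
      · omega
      · exact h
    · exact Or.inr

theorem occ_enc (b : Bool) (i : ℕ) : ∀ (F : CNF) (n : ℕ),
    occ b i (n + 1) (encW F) ↔ ∃ C, F[n]? = some C ∧ (i, b) ∈ C
  | [], n => by
    constructor
    · intro h
      exact absurd h (occ_nil b i (n + 1))
    · rintro ⟨C, h, -⟩
      simp at h
  | C :: F, n => by
    rw [encW_cons, occ_clause]
    have e : (∃ n', n + 1 = n' + 1 ∧ occ b i n' (litsW C ++ encW F)) ↔
        occ b i n (litsW C ++ encW F) := by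
      constructor
      · rintro ⟨n', h1, h2⟩
        have : n = n' := by omega
        rw [this]
        exact h2
      · intro h
        exact ⟨n, rfl, h⟩
    rw [e]
    cases n with
    | zero =>
      rw [occ_lits_zero]
      simp
    | succ n =>
      rw [occ_lits_succ, occ_enc b i F n]
      simp

theorem cnt_cons (S : A → Bool) (c : A) (s : List A) :
    Helper53_Chan.cnt S (c :: s) = (if S c then 1 else 0) + Helper53_Chan.cnt S s := by
  unfold Helper53_Chan.cnt
  by_cases h : S c
  · rw [List.filter_cons_of_pos h, if_pos h, List.length_cons]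
    omega
  · rw [List.filter_cons_of_neg h, if_neg h]
    omega

theorem cnt_ticks : ∀ k : ℕ, Helper53_Chan.cnt isCl (List.replicate k A.tick) = 0
  | 0 => rfl
  | k + 1 => by
    rw [List.replicate_succ, cnt_cons, cnt_ticks k]
    rfl

theorem cnt_litsW : ∀ C : List (ℕ × Bool), Helper53_Chan.cnt isCl (litsW C) = 0
  | [] => rfl
  | l :: C => by
    have h : isCl (sg l.2) = false := by
      unfold isCl
      simp [sg_ne_clause]
    rw [litsW_cons, cnt_cons, h, cnt_append, cnt_ticks, cnt_litsW C]
    rfl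

theorem cnt_encW : ∀ F : CNF, Helper53_Chan.cnt isCl (encW F) = F.length
  | [] => rfl
  | C :: F => by
    have h : isCl A.clause = true := by decide
    rw [encW_cons, cnt_cons, h, cnt_append, cnt_litsW, cnt_encW F, List.length_cons]
    simp
    omega

open Classical in
/-- prints something when the literal `(i, b)` of the clause `j` begins with the letter `c` -/
noncomputable def hitF (w : List A) (j i : ℕ) (b : Bool) (p : List A) (c : A) : List A :=
  if c = sg b then (if Helper53_Chan.cnt isCl p = j + 1 ∧ lead (w.drop (p.length + 1)) = i then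
    [A.tick] else []) else []

theorem hit_iff (w : List A) (j i : ℕ) (b : Bool) : ∀ (s p : List A), w = p ++ s →
    (scan (hitF w j i b) p s ≠ [] ↔
      ∃ n, Helper53_Chan.cnt isCl p + n = j + 1 ∧ occ b i n s)
  | [], p, _ => by
    constructor
    · intro h
      exact absurd rfl h
    · rintro ⟨n, -, h⟩
      exact absurd h (occ_nil b i n)
  | c :: s, p, hw => by
    have hw' : w = (p ++ [c]) ++ s := by
      rw [hw]
      simp
    have hd : w.drop (p.length + 1) = s := by
      rw [hw']
      have : p.length + 1 = (p ++ [c]).length := by simp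
      rw [this, List.drop_left]
    have h1 := hit_iff w j i b s (p ++ [c]) hw'
    have h2 : Helper53_Chan.cnt isCl (p ++ [c]) = Helper53_Chan.cnt isCl p +
        (if c = A.clause then 1 else 0) := by
      rw [cnt_append, cnt_cons]
      unfold isCl
      by_cases h : c = A.clause
      · simp only [h, decide_true, if_true]
        rfl
      · simp only [h, decide_false, if_false]
        rfl
    rw [scan]
    have h3 : (hitF w j i b p c ++ scan (hitF w j i b) (p ++ [c]) s ≠ []) ↔
        (hitF w j i b p c ≠ [] ∨ scan (hitF w j i b) (p ++ [c]) s ≠ []) := by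
      rw [Ne, List.append_eq_nil_iff]
      tauto
    have h4 : hitF w j i b p c ≠ [] ↔ (c = sg b ∧ Helper53_Chan.cnt isCl p = j + 1 ∧ lead s = i) := by
      unfold hitF
      rw [hd]
      by_cases ha : c = sg b
      · rw [if_pos ha]
        by_cases hb : Helper53_Chan.cnt isCl p = j + 1 ∧ lead s = i
        · rw [if_pos hb]
          simp [ha, hb]
        · rw [if_neg hb]
          simp only [ne_eq, not_true_eq_false, false_iff]
          tauto
      · rw [if_neg ha]
        simp [ha]
    rw [h3, h4, h1, h2]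
    constructor
    · rintro (⟨ha, hb, hc⟩ | ⟨n, hn, ho⟩)
      · refine ⟨0, by omega, ?_⟩
        rw [occ_cons]
        exact Or.inl ⟨ha, rfl, hc⟩
      · by_cases hcl : c = A.clause
        · rw [if_pos hcl] at hn
          refine ⟨n + 1, by omega, ?_⟩
          rw [hcl, occ_clause]
          exact ⟨n, rfl, ho⟩
        · rw [if_neg hcl] at hn
          refine ⟨n, by omega, ?_⟩
          rw [occ_cons, if_neg hcl]
          exact Or.inr ho
    · rintro ⟨n, hn, ho⟩
      rw [occ_cons] at ho
      rcases ho with ⟨ha, hb, hc⟩ | ho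
      · exact Or.inl ⟨ha, by omega, hc⟩
      · right
        by_cases hcl : c = A.clause
        · rw [if_pos hcl] at ho
          obtain ⟨n', h5, h6⟩ := ho
          refine ⟨n', ?_, h6⟩
          rw [if_pos hcl]
          omega
        · rw [if_neg hcl] at ho
          refine ⟨n, ?_, ho⟩
          rw [if_neg hcl]
          omega

/-- the test for `Lit` -/
def litQ (w : List A) (j i : ℕ) (b : Bool) : Prop :=
  Helper53_Chan.cnt isCl w ≤ j ∨ scan (hitF w j i b) [] w ≠ []

theorem litQ_iff (F : CNF) (j i : ℕ) (b : Bool) : litQ (encW F) j i b ↔ Lit F j i b := by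
  unfold litQ Lit
  rw [hit_iff (encW F) j i b (encW F) [] rfl, cnt_encW]
  have h0 : Helper53_Chan.cnt isCl ([] : List A) = 0 := rfl
  have e : (∃ n, Helper53_Chan.cnt isCl ([] : List A) + n = j + 1 ∧ occ b i n (encW F)) ↔
      ∃ C, F[j]? = some C ∧ (i, b) ∈ C := by
    rw [← occ_enc]
    constructor
    · rintro ⟨n, h1, h2⟩
      have : n = j + 1 := by omega
      rw [← this]
      exact h2
    · intro h
      exact ⟨j + 1, by omega, h⟩
  rw [e]
  constructor
  · rintro (h | ⟨C, h1, h2⟩) C' h3
    · rw [List.getElem?_eq_none h] at h3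
      exact absurd h3 (by simp)
    · rw [h1] at h3
      rw [← Option.some.inj h3]
      exact h2
  · intro h
    by_cases hj : F.length ≤ j
    · exact Or.inl hj
    · right
      have hj' : j < F.length := by omega
      exact ⟨F[j], List.getElem?_eq_getElem hj', h _ (List.getElem?_eq_getElem hj')⟩

theorem tlit {m : ℕ} (iw : Fin m) {j i : (Fin m → List A) → ℕ} (hj : NG m j) (hi : NG m i)
    (b : Bool) : Test m (fun ρ => litQ (ρ iw) (j ρ) (i ρ) b) := by
  classical
  have hb : ∀ c : A, PGen (m + 1) (fun ρ : Fin (m + 1) → List A =>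
      hitF (ρ iw.succ) (j (ρ ∘ Fin.succ)) (i (ρ ∘ Fin.succ)) b (ρ 0) c) := by
    intro c
    unfold hitF
    by_cases hc : c = sg b
    · simp only [hc, if_true]
      refine Test.ite (Test.and (tEq (PGen.cnt isCl A.tick (PGen.var 0))
        (NG.add (NG.rename Fin.succ hj) (NG.const 1))) (tEq ?_ (NG.rename Fin.succ hi)))
        (PGen.const _) (PGen.const _)
      have h1 : PGen (m + 1) (fun ρ : Fin (m + 1) → List A =>
          (ρ iw.succ).drop ((ρ 0).length + 1)) :=
        PGen.congr (PGen.dropF (PGen.var iw.succ) (NG.add (NG.len 0) (NG.const 1)))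
          (fun ρ => by rw [List.length_replicate])
      exact PGen.tr A.tick A.tick (PGen.reverse h1)
    · simp only [hc, if_false]
      exact PGen.const []
  have hs : PGen m (fun ρ : Fin m → List A =>
      scan (fun p c => hitF (ρ iw) (j ρ) (i ρ) b p c) [] (ρ iw)) :=
    PGen.loopG (PGen.var iw) (K := fun c p ρ => hitF (ρ iw) (j ρ) (i ρ) b p c) hb
  exact tOr (tLe (PGen.cnt isCl A.tick (PGen.var iw)) hj) (tNot (Test.empty hs))

/-! ### Loops over the triples -/

/-- the next index modulo `p`, for `j < p` -/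
def nx (p j : ℕ) : ℕ := (j + 1) * (1 - (1 - (p - (j + 1))))

theorem nx_eq {p j : ℕ} (hj : j < p) : nx p j = (j + 1) % p := by
  unfold nx
  by_cases h : j + 1 = p
  · rw [← h, Nat.mod_self]
    simp
  · rw [Nat.mod_eq_of_lt (by omega)]
    have h1 : 1 - (p - (j + 1)) = 0 := by omega
    rw [h1, Nat.sub_zero, Nat.mul_one]

open Classical in
/-- the triples of a tip -/
noncomputable def tipW (w : List A) (K : ℕ → ℕ → ℕ → List A) (i j : ℕ) (b : Bool) : List A :=
  (if litQ w j i b then K (tip (w.length + 1) i j b) ((w.length + 1) * (w.length + 1) + j)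
      ((w.length + 1) * (w.length + 1) + j) else []) ++
    (List.range ((w.length + 1) * (w.length + 1 - 1))).flatMap fun k =>
      K (tip (w.length + 1) i j b) ((w.length + 1) * (w.length + 1) + (w.length + 1) + k)
        ((w.length + 1) * (w.length + 1) + (w.length + 1) + k)

/-- the loop over all triples -/
noncomputable def tripW (w : List A) (K : ℕ → ℕ → ℕ → List A) : List A :=
  (List.range (w.length + 1)).flatMap fun i => (List.range (w.length + 1)).flatMap fun j =>
    (K (tip (w.length + 1) i j false) (i * (w.length + 1) + j) (i * (w.length + 1) + j) ++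
      K (tip (w.length + 1) i j true) (i * (w.length + 1) + nx (w.length + 1) j)
        (i * (w.length + 1) + j)) ++ (tipW w K i j false ++ tipW w K i j true)

theorem tipW_eq (F : CNF) (K : ℕ → ℕ → ℕ → List A) (i j : ℕ) (b : Bool) :
    tipW (encW F) K i j b =
      (tipTrips F ((encW F).length + 1) i j b).flatMap fun e => K e.1 e.2.1 e.2.2 := by
  unfold tipW tipTrips
  rw [List.flatMap_append, List.flatMap_map]
  congr 1
  by_cases h : Lit F j i b
  · rw [if_pos h, if_pos ((litQ_iff F j i b).2 h)]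
    simp
  · rw [if_neg h, if_neg (fun h' => h ((litQ_iff F j i b).1 h'))]
    rfl

theorem tripW_eq (F : CNF) (K : ℕ → ℕ → ℕ → List A) :
    tripW (encW F) K = (trips F ((encW F).length + 1)).flatMap fun e => K e.1 e.2.1 e.2.2 := by
  unfold tripW trips
  rw [List.flatMap_assoc]
  refine List.flatMap_congr (fun i _ => ?_)
  rw [List.flatMap_assoc]
  refine List.flatMap_congr (fun j hj => ?_)
  rw [List.flatMap_append, List.flatMap_append, ← tipW_eq, ← tipW_eq, nx_eq (List.mem_range.1 hj)]
  simp

/-- generators with three numbers as parameters -/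
def KG (m : ℕ) (K : ℕ → ℕ → ℕ → (Fin m → List A) → List A) : Prop :=
  ∀ (m' : ℕ) (ι : Fin m → Fin m') (x y z : (Fin m' → List A) → ℕ), NG m' x → NG m' y → NG m' z →
    PGen m' (fun ρ => K (x ρ) (y ρ) (z ρ) (ρ ∘ ι))

theorem ng_tip {m : ℕ} {p i j : (Fin m → List A) → ℕ} (hp : NG m p) (hi : NG m i) (hj : NG m j)
    (b : Bool) : NG m (fun ρ => tip (p ρ) (i ρ) (j ρ) b) :=
  NG.add (NG.mul (NG.const 2) (NG.add (NG.mul hi hp) hj)) (NG.const _)

theorem ng_nx {m : ℕ} {p j : (Fin m → List A) → ℕ} (hp : NG m p) (hj : NG m j) :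
    NG m (fun ρ => nx (p ρ) (j ρ)) :=
  NG.mul (NG.add hj (NG.const 1)) (NG.sub (NG.const 1) (NG.sub (NG.const 1)
    (NG.sub hp (NG.add hj (NG.const 1)))))

theorem gen_tipW {m m' : ℕ} {K : ℕ → ℕ → ℕ → (Fin m → List A) → List A} (hK : KG m K)
    (ι : Fin m → Fin m') (iw : Fin m') {i j : (Fin m' → List A) → ℕ} (hi : NG m' i)
    (hj : NG m' j) (b : Bool) :
    PGen m' (fun ρ => tipW (ρ iw) (fun x y z => K x y z (ρ ∘ ι)) (i ρ) (j ρ) b) := by
  classical
  have hp : ∀ {n : ℕ} (k : Fin n), NG n (fun ρ => (ρ k).length + 1) :=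
    fun k => NG.add (NG.len k) (NG.const 1)
  have h1 : PGen m' (fun ρ => K (tip ((ρ iw).length + 1) (i ρ) (j ρ) b)
      (((ρ iw).length + 1) * ((ρ iw).length + 1) + j ρ)
      (((ρ iw).length + 1) * ((ρ iw).length + 1) + j ρ) (ρ ∘ ι)) :=
    hK m' ι _ _ _ (ng_tip (hp iw) hi hj b) (NG.add (NG.mul (hp iw) (hp iw)) hj)
      (NG.add (NG.mul (hp iw) (hp iw)) hj)
  have h2 : PGen (m' + 1) (fun ρ : Fin (m' + 1) → List A =>
      K (tip ((ρ iw.succ).length + 1) (i (ρ ∘ Fin.succ)) (j (ρ ∘ Fin.succ)) b)
      (((ρ iw.succ).length + 1) * ((ρ iw.succ).length + 1) + ((ρ iw.succ).length + 1) +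
        (ρ 0).length)
      (((ρ iw.succ).length + 1) * ((ρ iw.succ).length + 1) + ((ρ iw.succ).length + 1) +
        (ρ 0).length) (ρ ∘ (Fin.succ ∘ ι))) :=
    hK (m' + 1) (Fin.succ ∘ ι) _ _ _ (ng_tip (hp iw.succ) (NG.rename Fin.succ hi)
      (NG.rename Fin.succ hj) b)
      (NG.add (NG.add (NG.mul (hp _) (hp _)) (hp _)) (NG.len 0))
      (NG.add (NG.add (NG.mul (hp _) (hp _)) (hp _)) (NG.len 0))
  have h3 : NG m' (fun ρ => ((ρ iw).length + 1) * ((ρ iw).length + 1 - 1)) :=
    NG.mul (hp iw) (NG.sub (hp iw) (NG.const 1))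
  exact PGen.append (Test.ite (tlit iw hj hi b) h1 (PGen.const []))
    (loopN h3 (K := fun k ρ => K (tip ((ρ iw).length + 1) (i ρ) (j ρ) b)
      (((ρ iw).length + 1) * ((ρ iw).length + 1) + ((ρ iw).length + 1) + k)
      (((ρ iw).length + 1) * ((ρ iw).length + 1) + ((ρ iw).length + 1) + k) (ρ ∘ ι)) h2)

theorem gen_tripW {m : ℕ} {K : ℕ → ℕ → ℕ → (Fin m → List A) → List A} (hK : KG m K)
    (iw : Fin m) : PGen m (fun ρ => tripW (ρ iw) (fun x y z => K x y z ρ)) := by
  have hp : ∀ {n : ℕ} (k : Fin n), NG n (fun ρ => (ρ k).length + 1) :=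
    fun k => NG.add (NG.len k) (NG.const 1)
  have hi : NG (m + 2) (fun ρ : Fin (m + 2) → List A => (ρ 1).length) := NG.len 1
  have hj : NG (m + 2) (fun ρ : Fin (m + 2) → List A => (ρ 0).length) := NG.len 0
  have h1 : PGen (m + 2) (fun ρ : Fin (m + 2) → List A =>
      (K (tip ((ρ iw.succ.succ).length + 1) (ρ 1).length (ρ 0).length false)
        ((ρ 1).length * ((ρ iw.succ.succ).length + 1) + (ρ 0).length)
        ((ρ 1).length * ((ρ iw.succ.succ).length + 1) + (ρ 0).length)
          (ρ ∘ (Fin.succ ∘ Fin.succ)) ++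
      K (tip ((ρ iw.succ.succ).length + 1) (ρ 1).length (ρ 0).length true)
        ((ρ 1).length * ((ρ iw.succ.succ).length + 1) +
          nx ((ρ iw.succ.succ).length + 1) (ρ 0).length)
        ((ρ 1).length * ((ρ iw.succ.succ).length + 1) + (ρ 0).length)
          (ρ ∘ (Fin.succ ∘ Fin.succ))) ++
      (tipW (ρ iw.succ.succ) (fun x y z => K x y z (ρ ∘ (Fin.succ ∘ Fin.succ))) (ρ 1).length
          (ρ 0).length false ++
        tipW (ρ iw.succ.succ) (fun x y z => K x y z (ρ ∘ (Fin.succ ∘ Fin.succ))) (ρ 1).length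
          (ρ 0).length true)) :=
    PGen.append (PGen.append
      (hK (m + 2) (Fin.succ ∘ Fin.succ) _ _ _ (ng_tip (hp _) hi hj false)
        (NG.add (NG.mul hi (hp _)) hj) (NG.add (NG.mul hi (hp _)) hj))
      (hK (m + 2) (Fin.succ ∘ Fin.succ) _ _ _ (ng_tip (hp _) hi hj true)
        (NG.add (NG.mul hi (hp _)) (ng_nx (hp _) hj)) (NG.add (NG.mul hi (hp _)) hj)))
      (PGen.append (gen_tipW hK _ _ hi hj false) (gen_tipW hK _ _ hi hj true))
  exact loopN (hp iw) (K := fun i ρ => (List.range ((ρ iw).length + 1)).flatMap fun j =>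
    (K (tip ((ρ iw).length + 1) i j false) (i * ((ρ iw).length + 1) + j)
        (i * ((ρ iw).length + 1) + j) ρ ++
      K (tip ((ρ iw).length + 1) i j true) (i * ((ρ iw).length + 1) + nx ((ρ iw).length + 1) j)
        (i * ((ρ iw).length + 1) + j) ρ) ++ (tipW (ρ iw) (fun x y z => K x y z ρ) i j false ++
          tipW (ρ iw) (fun x y z => K x y z ρ) i j true))
    (loopN (hp iw.succ) (K := fun j (ρ : Fin (m + 1) → List A) =>
      (K (tip ((ρ iw.succ).length + 1) (ρ 0).length j false)
          ((ρ 0).length * ((ρ iw.succ).length + 1) + j)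
          ((ρ 0).length * ((ρ iw.succ).length + 1) + j) (ρ ∘ Fin.succ) ++
        K (tip ((ρ iw.succ).length + 1) (ρ 0).length j true)
          ((ρ 0).length * ((ρ iw.succ).length + 1) + nx ((ρ iw.succ).length + 1) j)
          ((ρ 0).length * ((ρ iw.succ).length + 1) + j) (ρ ∘ Fin.succ)) ++
        (tipW (ρ iw.succ) (fun x y z => K x y z (ρ ∘ Fin.succ)) (ρ 0).length j false ++
          tipW (ρ iw.succ) (fun x y z => K x y z (ρ ∘ Fin.succ)) (ρ 0).length j true)) h1)

/-! ### The parameters of the instance -/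

/-- the parameter `t` -/
def tt (w : List A) : ℕ := 2 * ((w.length + 1) * (w.length + 1))

/-- the number of triples -/
noncomputable def ell (w : List A) : ℕ := (tripW w fun _ _ _ => [A.tick]).length

/-- the sum of the entries of the triples -/
noncomputable def sig (w : List A) : ℕ := (tripW w fun x y z =>
  List.replicate (vAN (tt w) 0 x + vAN (tt w) 1 y + vAN (tt w) 2 z) A.tick).length

section

variable {m : ℕ}

theorem ng_tt (j : Fin m) : NG m (fun ρ => tt (ρ j)) :=
  NG.mul (NG.const 2) (NG.mul (NG.add (NG.len j) (NG.const 1)) (NG.add (NG.len j) (NG.const 1)))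

theorem ng_ell (j : Fin m) : NG m (fun ρ => ell (ρ j)) :=
  NG.length (gen_tripW (K := fun _ _ _ _ => [A.tick]) (fun _ _ _ _ _ _ _ _ => PGen.const _) j)

theorem ng_vC {n : ℕ} (j : Fin n) {x y z : (Fin n → List A) → ℕ} (hx : NG n x) (hy : NG n y)
    (hz : NG n z) :
    NG n (fun ρ => vAN (tt (ρ j)) 0 (x ρ) + vAN (tt (ρ j)) 1 (y ρ) + vAN (tt (ρ j)) 2 (z ρ)) :=
  NG.add (NG.add (ng_vA 0 (ng_tt j) hx) (ng_vA 1 (ng_tt j) hy)) (ng_vA 2 (ng_tt j) hz)

theorem ng_sig (j : Fin m) : NG m (fun ρ => sig (ρ j)) :=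
  NG.length (gen_tripW (K := fun x y z ρ => List.replicate
    (vAN (tt (ρ j)) 0 x + vAN (tt (ρ j)) 1 y + vAN (tt (ρ j)) 2 z) A.tick)
    (fun _ ι _ _ _ hx hy hz => ng_vC (ι j) hx hy hz) j)

/-- the scale -/
noncomputable def scW (w : List A) : ℕ := 200 * (tt w + ell w + 2)

theorem ng_sc (j : Fin m) : NG m (fun ρ => scW (ρ j)) :=
  NG.mul (NG.const 200) (NG.add (NG.add (ng_tt j) (ng_ell j)) (NG.const 2))

/-- the number of entries 8 -/
noncomputable def n4W (w : List A) : ℕ :=
  scW w * (4 + sig w + (4 * tt w + 4) * vDN (tt w)) - (15 * ell w + 22 * tt w + 28)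

theorem ng_n4 (j : Fin m) : NG m (fun ρ => n4W (ρ j)) :=
  NG.sub (NG.mul (ng_sc j) (NG.add (NG.add (NG.const 4) (ng_sig j))
    (NG.mul (NG.add (NG.mul (NG.const 4) (ng_tt j)) (NG.const 4)) (ng_vD (ng_tt j)))))
    (NG.add (NG.add (NG.mul (NG.const 15) (ng_ell j)) (NG.mul (NG.const 22) (ng_tt j)))
      (NG.const 28))

/-- the number of entries 3 -/
noncomputable def n3W (w : List A) : ℕ := 2 * (7 * tt w + ell w + 9 + n4W w) - (2 * tt w + 6)

theorem ng_n3 (j : Fin m) : NG m (fun ρ => n3W (ρ j)) :=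
  NG.sub (NG.mul (NG.const 2) (NG.add (NG.add (NG.add (NG.mul (NG.const 7) (ng_tt j)) (ng_ell j))
    (NG.const 9)) (ng_n4 j))) (NG.add (NG.mul (NG.const 2) (ng_tt j)) (NG.const 6))

/-- the entry belonging to `Z` -/
noncomputable def zW (w : List A) : ℕ :=
  2 * (scW w * (sig w + (4 * tt w + 4) * vDN (tt w) - sAN (tt w)) -
    (14 * ell w + 2 * tt w + 20))

theorem ng_z (j : Fin m) : NG m (fun ρ => zW (ρ j)) :=
  NG.mul (NG.const 2) (NG.sub (NG.mul (ng_sc j) (NG.sub (NG.add (ng_sig j)
    (NG.mul (NG.add (NG.mul (NG.const 4) (ng_tt j)) (NG.const 4)) (ng_vD (ng_tt j))))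
      (ng_sA (ng_tt j)))) (NG.add (NG.add (NG.mul (NG.const 14) (ng_ell j))
        (NG.mul (NG.const 2) (ng_tt j))) (NG.const 20)))

end

/-- the word of the list -/
noncomputable def finW (w : List A) : List A :=
  (List.range (tt w)).flatMap (fun i => prn (2 * (scW w * vAN (tt w) 0 i) - 1) ++
      (prn (2 * (scW w * vAN (tt w) 1 i) - 1) ++ prn (2 * (scW w * vAN (tt w) 2 i)))) ++
    tripW w (fun x y z => prn (2 * (scW w *
      (vAN (tt w) 0 x + vAN (tt w) 1 y + vAN (tt w) 2 z) - 10))) ++
    (prn (2 * scW w - 1) ++ (prn (2 * (scW w + 3)) ++ (prn (2 * (scW w * 3) - 1) ++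
      prn (2 * (scW w * 3 + 3))))) ++
    (List.range (4 * tt w + 4)).flatMap (fun _ => prn (2 * (scW w * vDN (tt w)) - 1)) ++
    prn (zW w) ++ (List.range (n4W w)).flatMap (fun _ => prn 8) ++
    (List.range (n3W w)).flatMap (fun _ => prn 3)

theorem gen_finW : PGen 1 (fun ρ : Fin 1 → List A => finW (ρ 0)) := by
  have ht : ∀ {n : ℕ} (j : Fin n), NG n (fun ρ => tt (ρ j)) := fun j => ng_tt j
  have hs : ∀ {n : ℕ} (j : Fin n), NG n (fun ρ => scW (ρ j)) := fun j => ng_sc j
  have c : ∀ {n : ℕ} (k : ℕ), NG n (fun _ => k) := fun k => NG.const k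
  have hA : ∀ k : ℕ, NG 2 (fun ρ : Fin 2 → List A =>
      2 * (scW (ρ 1) * vAN (tt (ρ 1)) k (ρ 0).length)) := fun k =>
    NG.mul (c 2) (NG.mul (hs 1) (ng_vA k (ht 1) (NG.len 0)))
  have p1 : PGen 1 (fun ρ : Fin 1 → List A => (List.range (tt (ρ 0))).flatMap (fun i =>
      prn (2 * (scW (ρ 0) * vAN (tt (ρ 0)) 0 i) - 1) ++
      (prn (2 * (scW (ρ 0) * vAN (tt (ρ 0)) 1 i) - 1) ++
        prn (2 * (scW (ρ 0) * vAN (tt (ρ 0)) 2 i))))) :=
    loopN (ht 0) (K := fun i ρ => prn (2 * (scW (ρ 0) * vAN (tt (ρ 0)) 0 i) - 1) ++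
      (prn (2 * (scW (ρ 0) * vAN (tt (ρ 0)) 1 i) - 1) ++
        prn (2 * (scW (ρ 0) * vAN (tt (ρ 0)) 2 i))))
      (PGen.append (gen_prn (NG.sub (hA 0) (c 1))) (PGen.append (gen_prn (NG.sub (hA 1) (c 1)))
        (gen_prn (hA 2))))
  have p2 : PGen 1 (fun ρ : Fin 1 → List A => tripW (ρ 0) (fun x y z => prn (2 * (scW (ρ 0) *
      (vAN (tt (ρ 0)) 0 x + vAN (tt (ρ 0)) 1 y + vAN (tt (ρ 0)) 2 z) - 10)))) :=
    gen_tripW (K := fun x y z ρ => prn (2 * (scW (ρ 0) *
      (vAN (tt (ρ 0)) 0 x + vAN (tt (ρ 0)) 1 y + vAN (tt (ρ 0)) 2 z) - 10)))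
      (fun _ ι _ _ _ hx hy hz => gen_prn (NG.mul (c 2) (NG.sub (NG.mul (hs (ι 0))
        (ng_vC (ι 0) hx hy hz)) (c 10)))) 0
  have p3 : PGen 1 (fun ρ : Fin 1 → List A => prn (2 * scW (ρ 0) - 1) ++
      (prn (2 * (scW (ρ 0) + 3)) ++ (prn (2 * (scW (ρ 0) * 3) - 1) ++
      prn (2 * (scW (ρ 0) * 3 + 3))))) :=
    PGen.append (gen_prn (NG.sub (NG.mul (c 2) (hs 0)) (c 1)))
      (PGen.append (gen_prn (NG.mul (c 2) (NG.add (hs 0) (c 3))))
        (PGen.append (gen_prn (NG.sub (NG.mul (c 2) (NG.mul (hs 0) (c 3))) (c 1)))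
          (gen_prn (NG.mul (c 2) (NG.add (NG.mul (hs 0) (c 3)) (c 3))))))
  have p4 : PGen 1 (fun ρ : Fin 1 → List A => (List.range (4 * tt (ρ 0) + 4)).flatMap
      (fun _ => prn (2 * (scW (ρ 0) * vDN (tt (ρ 0))) - 1))) :=
    loopN (NG.add (NG.mul (c 4) (ht 0)) (c 4))
      (K := fun _ ρ => prn (2 * (scW (ρ 0) * vDN (tt (ρ 0))) - 1))
      (gen_prn (NG.sub (NG.mul (c 2) (NG.mul (hs 1) (ng_vD (ht 1)))) (c 1)) :
        PGen 2 (fun ρ : Fin 2 → List A => prn (2 * (scW (ρ 1) * vDN (tt (ρ 1))) - 1)))
  have p5 : PGen 1 (fun ρ : Fin 1 → List A => prn (zW (ρ 0))) := gen_prn (ng_z 0)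
  have p6 : PGen 1 (fun ρ : Fin 1 → List A => (List.range (n4W (ρ 0))).flatMap
      (fun _ => prn 8)) := loopN (ng_n4 0) (K := fun _ _ => prn 8) (PGen.const _)
  have p7 : PGen 1 (fun ρ : Fin 1 → List A => (List.range (n3W (ρ 0))).flatMap
      (fun _ => prn 3)) := loopN (ng_n3 0) (K := fun _ _ => prn 3) (PGen.const _)
  exact PGen.append (PGen.append (PGen.append (PGen.append (PGen.append (PGen.append p1 p2) p3)
    p4) p5) p6) p7

/-! ### The list -/

theorem flatMap_single {α : Type} (l : List α) :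
    (l.flatMap fun _ => [A.tick]).length = l.length := by
  induction l with
  | nil => rfl
  | cons a l ih => rw [List.flatMap_cons, List.length_append, ih, List.length_cons]; simp; omega

theorem flatMap_rep {α : Type} (f : α → ℕ) (l : List α) :
    (l.flatMap fun a => List.replicate (f a) A.tick).length = (l.map f).sum := by
  induction l with
  | nil => rfl
  | cons a l ih => rw [List.flatMap_cons, List.length_append, ih, List.map_cons, List.sum_cons,
      List.length_replicate]

theorem range_rep (n v : ℕ) :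
    (List.range n).flatMap (fun _ => prn v) = (List.replicate n v).flatMap prn := by
  induction n with
  | zero => rfl
  | succ n ih =>
    rw [List.range_succ, List.flatMap_append, ih, List.replicate_succ', List.flatMap_append]
    rfl

theorem finW_eq (F : CNF) : finW (encW F) = (seqL (tt (encW F))
    (trips F ((encW F).length + 1))).flatMap prn := by
  set w := encW F with hw
  set L := trips F (w.length + 1) with hL
  have e1 : ell w = L.length := by
    unfold ell
    rw [hw, tripW_eq]
    exact flatMap_single _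
  have e2 : sig w = sCN (tt w) L := by
    unfold sig sCN
    rw [hw, tripW_eq]
    exact flatMap_rep (vCN (tt w)) L
  have e3 : scW w = scN (tt w) L := by
    unfold scW scN
    rw [e1]
  have e4 : n4W w = n4N (tt w) L := by
    unfold n4W n4N
    rw [e1, e2, e3]
  have e5 : n3W w = n3N (tt w) L := by
    unfold n3W n3N
    rw [e1, e4]
  have e6 : zW w = 2 * (scN (tt w) L * vZN (tt w) L - (14 * L.length + 2 * tt w + 20)) := by
    unfold zW vZN
    rw [e1, e2, e3]
  have e7 : ∀ K : ℕ → ℕ → ℕ → List A, tripW w K = L.flatMap fun e => K e.1 e.2.1 e.2.2 := by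
    intro K
    rw [hw, tripW_eq]
  unfold finW seqL
  rw [e3, e4, e5, e6, e7, range_rep, range_rep, range_rep]
  simp only [List.flatMap_append, List.flatMap_map, List.flatMap_assoc, List.flatMap_cons,
    List.flatMap_nil, List.append_nil]
  rfl

/-- reading the output letters -/
def toB : A → List Bool
  | .tick => [true]
  | .width => [false]
  | _ => []

theorem toB_prn (v : ℕ) : (prn v).flatMap toB = List.replicate v true ++ [false] := by
  unfold prn
  rw [List.flatMap_append]
  congr 1
  induction v with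
  | zero => rfl
  | succ v ih => rw [List.replicate_succ, List.flatMap_cons, ih, List.replicate_succ]; rfl

theorem toB_list (l : List ℕ) : (l.flatMap prn).flatMap toB = encSeq l := by
  rw [List.flatMap_assoc]
  exact List.flatMap_congr (fun v _ => toB_prn v)

/-- The list belonging to a formula is computable in polynomial time. -/
theorem tim : TimStmt := by
  have c1 : TM2ComputableInPolyTime encodeCNF (id : List A → List A)
      (fun F => (encodeCNF F).map inj) :=
    morphComputable encodeCNF id _ [] (fun b => [inj b]) (fun F => by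
      show (encodeCNF F).map inj = [] ++ (encodeCNF F).flatMap (fun b => [inj b])
      rw [List.nil_append]
      induction encodeCNF F with
      | nil => rfl
      | cons b x ih => rw [List.map_cons, List.flatMap_cons, ih]; rfl)
  obtain ⟨c2⟩ := pgen_computable _ gen_finW
  have c3 : TM2ComputableInPolyTime (id : List A → List A) (fun w : List Bool => w)
      (fun w => w.flatMap toB) :=
    morphComputable id (fun w => w) _ [] toB (fun w => by
      rw [List.nil_append]
      rfl)
  obtain ⟨c4⟩ := TM2ComputableInPolyTime.comp c1 c2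
  obtain ⟨c5⟩ := TM2ComputableInPolyTime.comp c4 c3
  refine ⟨⟨c5.toTM2ComputableAux, c5.time, fun F => ?_⟩⟩
  have h := c5.outputsFun F
  have e : (((fun w : List A => w.flatMap toB) ∘ ((fun w : List A =>
      finW ((![w] : Fin 1 → List A) 0)) ∘ fun F : CNF => (encodeCNF F).map inj)) F) =
      encSeq (seqF F) := by
    show (finW ((encodeCNF F).map inj)).flatMap toB = encSeq (seqF F)
    rw [map_inj, finW_eq, toB_list]
    unfold seqF tt
    rw [← map_inj, List.length_map]
  rw [e] at h
  exact h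

end Pool.Agent.PDT.H53
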